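import Pool.Agent.H73.G.RB.Q82.MD.Stm

/-!
# Every two-form on the plane is exact
-/

set_option autoImplicit false

namespace Pool.Agent.Q210.MD

open MeasureTheory Set Filter Topology
open Pool.Agent.W779.Morrey Pool.Agent.Q82.MD

/-- the radial mean `∫₀¹ s c(sy) ds` -/
noncomputable def rm (c : V → ℝ) (y : V) : ℝ := ∫ s in (0 : ℝ)..1, s * c (s • y)

/-- its derivative -/
noncomputable def rm' (c : V → ℝ) (y : V) : V →L[ℝ] ℝ :=
  ∫ s in (0 : ℝ)..1, (s * s) • fderiv ℝ c (s • y)

theorem cont_rm' (c : V → ℝ) (hc : ContDiff ℝ 1 c) : Continuous (rm' c) := by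
  apply intervalIntegral.continuous_parametric_intervalIntegral_of_continuous'
  have h1 : Continuous (fderiv ℝ c) := hc.continuous_fderiv (by norm_num)
  fun_prop

theorem hasFDerivAt_rm (c : V → ℝ) (hc : ContDiff ℝ 1 c) (y : V) :
    HasFDerivAt (rm c) (rm' c y) y := by
  have hcc : Continuous c := hc.continuous
  have hcf : Continuous (fderiv ℝ c) := hc.continuous_fderiv (by norm_num)
  have hd : Differentiable ℝ c := hc.differentiable (by norm_num)
  have hF' : Continuous fun q : V × ℝ => (q.2 * q.2) • fderiv ℝ c (q.2 • q.1) := by fun_prop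
  obtain ⟨C, hC⟩ := (((isCompact_closedBall y 1).prod isCompact_Icc).image
    (hF'.norm)).bddAbove (s := (fun q : V × ℝ => ‖(q.2 * q.2) • fderiv ℝ c (q.2 • q.1)‖) ''
      (Metric.closedBall y 1 ×ˢ Icc (0 : ℝ) 1))
  have h := intervalIntegral.hasFDerivAt_integral_of_dominated_of_fderiv_le
    (μ := volume) (a := 0) (b := 1) (s := Metric.ball y 1) (x₀ := y)
    (F := fun (y : V) (s : ℝ) => s * c (s • y))
    (F' := fun (y : V) (s : ℝ) => (s * s) • fderiv ℝ c (s • y)) (bound := fun _ => C)
    (Metric.ball_mem_nhds y one_pos)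
    (Eventually.of_forall fun z => (by fun_prop : Continuous fun s : ℝ =>
      s * c (s • z)).aestronglyMeasurable)
    ((by fun_prop : Continuous fun s : ℝ => s * c (s • y)).intervalIntegrable 0 1)
    (by fun_prop : Continuous fun s : ℝ => (s * s) • fderiv ℝ c (s • y)).aestronglyMeasurable
    (Eventually.of_forall fun s hs z hz => by
      rw [uIoc_of_le zero_le_one] at hs
      exact hC ⟨(z, s), ⟨Metric.ball_subset_closedBall hz, ⟨hs.1.le, hs.2⟩⟩, rfl⟩)
    (by simp)
    (Eventually.of_forall fun s hs z hz => by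
      have h1 : HasFDerivAt (fun y : V => s • y) (s • ContinuousLinearMap.id ℝ V) z :=
        (hasFDerivAt_id z).const_smul s
      have h2 : HasFDerivAt c (fderiv ℝ c (s • z)) (s • z) := (hd _).hasFDerivAt
      have h3 := (h2.comp z h1).const_mul s
      refine h3.congr_fderiv ?_
      ext v
      simp only [smul_apply, ContinuousLinearMap.comp_apply,
        ContinuousLinearMap.id_apply, map_smul, smul_eq_mul]
      ring)
  exact h

theorem rm_euler (c : V → ℝ) (hc : ContDiff ℝ 1 c) (y : V) : rm' c y y + 2 * rm c y = c y := by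
  have hcc : Continuous c := hc.continuous
  have hcf : Continuous (fderiv ℝ c) := hc.continuous_fderiv (by norm_num)
  have hd : Differentiable ℝ c := hc.differentiable (by norm_num)
  have h1 : rm' c y y = ∫ s in (0 : ℝ)..1, (s * s) * fderiv ℝ c (s • y) y := by
    unfold rm'
    rw [ContinuousLinearMap.intervalIntegral_apply]
    · rfl
    · exact (by fun_prop : Continuous fun s : ℝ => (s * s) • fderiv ℝ c (s • y)).intervalIntegrable
        0 1
  have h2 : ∀ s : ℝ, HasDerivAt (fun s : ℝ => s ^ 2 * c (s • y))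
      (s * s * fderiv ℝ c (s • y) y + 2 * (s * c (s • y))) s := by
    intro s
    have h3 : HasDerivAt (fun s : ℝ => s • y) y s := by
      have h4 := (hasDerivAt_id s).smul_const y
      rwa [one_smul] at h4
    have h5 : HasDerivAt (fun s : ℝ => c (s • y)) (fderiv ℝ c (s • y) y) s :=
      HasFDerivAt.comp_hasDerivAt s (hd _).hasFDerivAt h3
    have h6 := (hasDerivAt_pow 2 s).mul h5
    refine h6.congr_deriv ?_
    push_cast
    ring
  have h7 : ∫ s in (0 : ℝ)..1, (s * s * fderiv ℝ c (s • y) y + 2 * (s * c (s • y))) =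
      (1 : ℝ) ^ 2 * c ((1 : ℝ) • y) - (0 : ℝ) ^ 2 * c ((0 : ℝ) • y) := by
    apply intervalIntegral.integral_eq_sub_of_hasDerivAt (fun s _ => h2 s)
    exact (by fun_prop : Continuous fun s : ℝ =>
      s * s * fderiv ℝ c (s • y) y + 2 * (s * c (s • y))).intervalIntegrable 0 1
  rw [intervalIntegral.integral_add, intervalIntegral.integral_const_mul] at h7
  · rw [h1]
    unfold rm
    rw [h7, one_smul]
    ring
  · exact (by fun_prop : Continuous fun s : ℝ => s * s * fderiv ℝ c (s • y) y).intervalIntegrable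
      0 1
  · exact (by fun_prop : Continuous fun s : ℝ => 2 * (s * c (s • y))).intervalIntegrable 0 1

/-- the form `y ∧ ·` -/
noncomputable def wf : V →L[ℝ] V →L[ℝ] ℝ :=
  (ContinuousLinearMap.proj (R := ℝ) (φ := fun _ : Fin 2 => ℝ) 0).smulRight
      (ContinuousLinearMap.proj (R := ℝ) (φ := fun _ : Fin 2 => ℝ) 1) -
    (ContinuousLinearMap.proj (R := ℝ) (φ := fun _ : Fin 2 => ℝ) 1).smulRight
      (ContinuousLinearMap.proj (R := ℝ) (φ := fun _ : Fin 2 => ℝ) 0)

theorem wf_apply (a b : V) : wf a b = wd a b := rfl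

/-- JOB MD-4 PRIM -/
theorem prim : S_PRIM := by
  intro c hc
  have hder := hasFDerivAt_rm c hc
  have hrm : ContDiff ℝ 1 (rm c) := by
    rw [contDiff_one_iff_fderiv]
    refine ⟨fun y => (hder y).differentiableAt, ?_⟩
    have h1 : fderiv ℝ (rm c) = rm' c := funext fun y => (hder y).fderiv
    rw [h1]
    exact cont_rm' c hc
  refine ⟨fun y => rm c y • wf y, hrm.smul wf.contDiff, fun y a b => ?_⟩
  have h1 : HasFDerivAt (fun y => rm c y • wf y)
      (rm c y • wf + (rm' c y).smulRight (wf y)) y := (hder y).smul wf.hasFDerivAt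
  have h2 := rm_euler c hc y
  have hy : y = y 0 • Pi.single 0 1 + y 1 • Pi.single 1 1 := by
    ext i
    fin_cases i <;> simp
  have ha : a = a 0 • Pi.single 0 1 + a 1 • Pi.single 1 1 := by
    ext i
    fin_cases i <;> simp
  have hb : b = b 0 • Pi.single 0 1 + b 1 • Pi.single 1 1 := by
    ext i
    fin_cases i <;> simp
  have hlin : ∀ v : V, rm' c y v =
      v 0 * rm' c y (Pi.single 0 1) + v 1 * rm' c y (Pi.single 1 1) := by
    intro v
    have hv : v = v 0 • Pi.single 0 1 + v 1 • Pi.single 1 1 := by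
      ext i
      fin_cases i <;> simp
    conv_lhs => rw [hv]
    rw [map_add, map_smul, map_smul, smul_eq_mul, smul_eq_mul]
  unfold ed
  rw [h1.fderiv]
  simp only [add_apply, smul_apply,
    ContinuousLinearMap.smulRight_apply, smul_eq_mul, wf_apply]
  rw [← h2, hlin a, hlin b, hlin y]
  unfold wd
  ring

end Pool.Agent.Q210.MD
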